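import Pool.Agent.H20.AB.Bas

/-!
# Riemann-Roch: the number of sections of `m M + H` exceeds the volume
-/

set_option linter.unusedSectionVars false

namespace Pool.AB4

open AlgebraicGeometry CategoryTheory Order Filter Topology

variable {Y : Scheme.{0}} [IsIntegral Y] [IsLocallyNoetherian Y] {s : Y ⟶ Spec (.of ℂ)}

/-- Riemann-Roch for `m M + H`, when `H` and `H - K` are ample and `K M M = 0`. -/
theorem excRR (hN : Numbers s) {K M H : Pic Y} (hrr : ∃ c, IsC2 s K c) (hM : Nef s M)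
    (hH : Ample H) (hHK : Ample (H - K)) (hK : ∀ a, i4 s K M M a = 0) :
    ∃ γ : ℤ, ∀ m : ℕ,
      24 * (h0 s (m • M + H) : ℝ) - dg s (genericPoint Y) (m • M + H) =
      (((m : ℤ) ^ 2 * c2 s K M M + m * (-6 * i4 s K M H H + 2 * i4 s K K M H +
        2 * c2 s K M H - c2 s K K M) + γ : ℤ) : ℝ) := by
  obtain ⟨_, hc1, e, he⟩ := c2_spec hrr
  obtain ⟨_, h1, h2, h3, h4⟩ := i4_spec hN
  refine ⟨-2 * i4 s K H H H + i4 s K K H H + c2 s K H H - c2 s K K H + e, fun m => ?_⟩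
  have hL : Ample (m • M + H) := ample_add hN hM hH m
  have hLK : Ample (m • M + H - K) := by
    rw [add_sub_assoc]
    exact ample_add hN hM hHK m
  rw [← h4 _ hL]
  have h5 := he _ hLK
  have h6 : i4 s K (m • M + H) (m • M + H) (m • M + H) = 3 * m * i4 s K M H H + i4 s K H H H := by
    simp only [i4_add1 hN, i4_add2 hN, i4_add3 hN, i4_add4 hN, i4_nsmul1 hN, i4_nsmul2 hN,
      i4_nsmul3 hN, i4_nsmul4 hN]
    rw [hK M, hK H, h2 K H M M, h3 K M H M, hK H, h2 K H M H, h3 K H H M, h2 K H M H]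
    ring
  have h7 : i4 s K K (m • M + H) (m • M + H) = 2 * m * i4 s K K M H + i4 s K K H H := by
    simp only [i4_add1 hN, i4_add2 hN, i4_add3 hN, i4_add4 hN, i4_nsmul1 hN, i4_nsmul2 hN,
      i4_nsmul3 hN, i4_nsmul4 hN]
    rw [h3 K K H M, h2 K K M M, h3 K M K M, hK K]
    ring
  have h8 : c2 s K (m • M + H) (m • M + H) = (m : ℤ) ^ 2 * c2 s K M M + 2 * m * c2 s K M H +
      c2 s K H H := by
    simp only [c2_add1 hrr, c2_add2 hrr, c2_nsmul1 hrr, c2_nsmul2 hrr]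
    rw [hc1 H M]
    ring
  have h9 : c2 s K K (m • M + H) = m * c2 s K K M + c2 s K K H := by
    simp only [c2_add1 hrr, c2_add2 hrr, c2_nsmul1 hrr, c2_nsmul2 hrr]
  rw [h6, h7, h8, h9] at h5
  have h10 : 24 * (h0 s (m • M + H) : ℤ) - i4 s (m • M + H) (m • M + H) (m • M + H) (m • M + H) =
      (m : ℤ) ^ 2 * c2 s K M M + m * (-6 * i4 s K M H H + 2 * i4 s K K M H +
        2 * c2 s K M H - c2 s K K M) +
        (-2 * i4 s K H H H + i4 s K K H H + c2 s K H H - c2 s K K H + e) := by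
    rw [h5]
    ring
  rw [← h10]
  push_cast
  ring

/-- A quadratic polynomial with positive leading coefficient. -/
theorem exc_quad {α β γ : ℤ} (hα : 0 < α) : ∃ m₀ : ℕ, ∀ m : ℕ, m₀ ≤ m →
    (1 / 2 : ℝ) * (m : ℝ) ^ 2 ≤ (((m : ℤ) ^ 2 * α + m * β + γ : ℤ) : ℝ) := by
  refine ⟨2 * (β.natAbs + γ.natAbs) + 1, fun m hm => ?_⟩
  have h1 : (1 : ℤ) ≤ α := hα
  have hb : -(β.natAbs : ℤ) ≤ β := by omega
  have hg : -(γ.natAbs : ℤ) ≤ γ := by omega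
  have hm1 : (1 : ℤ) ≤ m := by omega
  have hm' : 2 * ((β.natAbs : ℤ) + γ.natAbs) + 1 ≤ m := by exact_mod_cast hm
  have key : (m : ℤ) ^ 2 ≤ 2 * ((m : ℤ) ^ 2 * α + m * β + γ) := by
    have e1 : (m : ℤ) ^ 2 ≤ (m : ℤ) ^ 2 * α := le_mul_of_one_le_right (by positivity) h1
    have e2 : (m : ℤ) * (-(β.natAbs : ℤ)) ≤ m * β := mul_le_mul_of_nonneg_left hb (by omega)
    have e3 : (γ.natAbs : ℤ) ≤ m * γ.natAbs := le_mul_of_one_le_left (by omega) hm1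
    have e4 : (m : ℤ) * (2 * ((β.natAbs : ℤ) + γ.natAbs) + 1) ≤ m * m :=
      mul_le_mul_of_nonneg_left hm' (by omega)
    linarith
  have key' : ((m : ℝ)) ^ 2 ≤ 2 * (((m : ℤ) ^ 2 * α + m * β + γ : ℤ) : ℝ) := by exact_mod_cast key
  linarith

/-- The same with a positive linear coefficient. -/
theorem exc_lin {α β γ : ℤ} (hα : 0 ≤ α) (hβ : 0 < β) : ∃ m₀ : ℕ, ∀ m : ℕ, m₀ ≤ m →
    (1 / 2 : ℝ) * (m : ℝ) ^ 1 ≤ (((m : ℤ) ^ 2 * α + m * β + γ : ℤ) : ℝ) := by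
  refine ⟨2 * γ.natAbs, fun m hm => ?_⟩
  have hg : -(γ.natAbs : ℤ) ≤ γ := by omega
  have hm' : 2 * (γ.natAbs : ℤ) ≤ m := by exact_mod_cast hm
  have key : (m : ℤ) ≤ 2 * ((m : ℤ) ^ 2 * α + m * β + γ) := by
    have e1 : (0 : ℤ) ≤ (m : ℤ) ^ 2 * α := by positivity
    have e2 : (m : ℤ) * 1 ≤ m * β := mul_le_mul_of_nonneg_left hβ (by omega)
    linarith
  have key' : (m : ℝ) ≤ 2 * (((m : ℤ) ^ 2 * α + m * β + γ : ℤ) : ℝ) := by exact_mod_cast key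
  rw [pow_one]
  linarith

/-- ROW EXC2 (Riemann-Roch arithmetic). -/
theorem exc2 (hN : Numbers s) (ha : ∃ a : Pic Y, Ample a) {K M : Pic Y} {E : Div Y} {r : ℕ}
    (hrr : ∃ c, IsC2 s K c)
    (hr : 0 < r) (hd : r • K = M + cl E) (hM : Nef s M)
    (hE : ∀ a, i4 s (cl E) M M a = 0) (h3 : ∀ a, i4 s M M M a = 0) (hc : 0 < c2 s K M M) :
    ∃ H : Pic Y, Ample H ∧ Excess s M H 2 := by
  obtain ⟨a, ha⟩ := ha
  obtain ⟨k, -, hk1, hk2⟩ := hN.absorb a (-K) ha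
  rw [← sub_eq_add_neg] at hk2
  have hK : ∀ b, i4 s K M M b = 0 := by
    intro b
    have h := congrArg (fun z => i4 s z M M b) hd
    simp only [i4_add1 hN, i4_nsmul1 hN] at h
    rw [h3 b, hE b, add_zero] at h
    rcases mul_eq_zero.1 h with h' | h'
    · exact absurd (by exact_mod_cast h' : r = 0) hr.ne'
    · exact h'
  obtain ⟨γ, hγ⟩ := excRR hN hrr hM hk1 hk2 hK
  obtain ⟨m₀, hm₀⟩ := exc_quad (β := -6 * i4 s K M (k • a) (k • a) + 2 * i4 s K K M (k • a) +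
        2 * c2 s K M (k • a) - c2 s K K M) (γ := γ) hc
  exact ⟨k • a, hk1, 1 / 2, by norm_num, m₀, fun m hm => by rw [hγ m]; exact hm₀ m hm⟩

/-- ROW EXC1.  `H = t A + H₁`, `H₁` and `H₁ - K` ample, `t` large. -/
theorem exc1 (hN : Numbers s) (ha : ∃ a : Pic Y, Ample a) {K M A : Pic Y} {E : Div Y} {r : ℕ}
    (hrr : ∃ c, IsC2 s K c)
    (hr : 0 < r) (hd : r • K = M + cl E) (hM : Nef s M) (hA : Nef s A)
    (hE : ∀ a, i4 s (cl E) M A a = 0) (h2 : ∀ a b, i4 s M M a b = 0)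
    (hc : 0 ≤ c2 s K M M) (hcA : 0 < c2 s K M A) :
    ∃ H : Pic Y, Ample H ∧ Excess s M H 1 := by
  obtain ⟨a, ha⟩ := ha
  obtain ⟨k, -, hk1, hk2⟩ := hN.absorb a (-K) ha
  rw [← sub_eq_add_neg] at hk2
  obtain ⟨-, s1, s2, s3, -⟩ := i4_spec hN
  have hK : ∀ b, i4 s K M M b = 0 := by
    intro b
    rw [s1 K M M b, s2 M K M b, h2]
  have hKA : ∀ b, i4 s K M A b = 0 := by
    intro b
    have h := congrArg (fun z => i4 s z M A b) hd
    simp only [i4_add1 hN, i4_nsmul1 hN] at h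
    rw [h2 A b, hE b, add_zero] at h
    rcases mul_eq_zero.1 h with h' | h'
    · exact absurd (by exact_mod_cast h' : r = 0) hr.ne'
    · exact h'
  obtain ⟨H₁, hH₁⟩ : ∃ H₁, H₁ = k • a := ⟨_, rfl⟩
  rw [← hH₁] at hk1 hk2
  obtain ⟨δ, hδ⟩ : ∃ δ : ℤ, δ = -6 * i4 s K M H₁ H₁ + 2 * i4 s K K M H₁ + 2 * c2 s K M H₁ -
    c2 s K K M := ⟨_, rfl⟩
  obtain ⟨t, ht⟩ : ∃ t : ℕ, t = δ.natAbs + 1 := ⟨_, rfl⟩
  have hH : Ample (t • A + H₁) := ample_add hN hA hk1 t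
  have hHK : Ample (t • A + H₁ - K) := by
    rw [add_sub_assoc]
    exact ample_add hN hA hk2 t
  obtain ⟨γ, hγ⟩ := excRR hN hrr hM hH hHK hK
  have e1 : i4 s K M (t • A + H₁) (t • A + H₁) = i4 s K M H₁ H₁ := by
    simp only [i4_add1 hN, i4_add2 hN, i4_add3 hN, i4_add4 hN, i4_nsmul1 hN, i4_nsmul2 hN,
      i4_nsmul3 hN, i4_nsmul4 hN]
    rw [hKA A, hKA H₁, s3 K M H₁ A, hKA H₁]
    ring
  have e2 : i4 s K K M (t • A + H₁) = i4 s K K M H₁ := by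
    simp only [i4_add4 hN, i4_nsmul4 hN]
    rw [s2 K K M A, s3 K M K A, hKA K]
    ring
  have e3 : c2 s K M (t • A + H₁) = t * c2 s K M A + c2 s K M H₁ := by
    simp only [c2_add1 hrr, c2_add2 hrr, c2_nsmul1 hrr, c2_nsmul2 hrr]
  have hβ : 0 < -6 * i4 s K M (t • A + H₁) (t • A + H₁) + 2 * i4 s K K M (t • A + H₁) +
        2 * c2 s K M (t • A + H₁) - c2 s K K M := by
    rw [e1, e2, e3]
    have h5 : (1 : ℤ) ≤ c2 s K M A := hcA
    have h6 : (t : ℤ) * 1 ≤ t * c2 s K M A := mul_le_mul_of_nonneg_left h5 (by omega)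
    have h7 : (t : ℤ) = δ.natAbs + 1 := by rw [ht]; push_cast; rfl
    have h8 : -(δ.natAbs : ℤ) ≤ δ := by omega
    have h9 : (0 : ℤ) ≤ δ.natAbs := by omega
    linarith
  obtain ⟨m₀, hm₀⟩ := exc_lin (γ := γ) hc hβ
  exact ⟨t • A + H₁, hH, 1 / 2, by norm_num, m₀, fun m hm => by rw [hγ m]; exact hm₀ m hm⟩

end Pool.AB4
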